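import Mathlib

namespace Pool.Agent.Results.MP_4101c8_co.Both

open Finset Classical

/-- total domination number -/
noncomputable def gammaT {V : Type} (G : SimpleGraph V) : ℕ :=
  sInf {k | ∃ S : Finset V, (∀ v, ∃ u ∈ S, G.Adj v u) ∧ S.card = k}

def inc (i j : Fin 7) : Bool :=
  let s := (i.1 + j.1) % 7
  s == 2 || s == 4 || s == 5 || s == 6

lemma inc_symm : ∀ i j, inc i j = inc j i := by decide

abbrev W (k : ℕ) := (Fin k × Bool) × Fin 7

def H (k : ℕ) : SimpleGraph (W k) where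
  Adj x y := x.1.1 = y.1.1 ∧ x.1.2 ≠ y.1.2 ∧ inc x.2 y.2 = true
  symm := ⟨fun x y h => ⟨h.1.symm, h.2.1.symm, by rw [inc_symm]; exact h.2.2⟩⟩
  loopless := ⟨fun _ h => h.2.1 rfl⟩

lemma four : ∀ i, (univ.filter (fun j => inc i j = true)).card = 4 := by decide

lemma three : ∀ T : Finset (Fin 7), (∀ i, ∃ j ∈ T, inc i j = true) → 3 ≤ T.card := by
  decide +kernel

lemma reg (k : ℕ) : (H k).IsRegularOfDegree 4 := by
  rintro ⟨⟨b, s⟩, i⟩
  rw [← SimpleGraph.card_neighborFinset_eq_degree, ← four i]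
  symm
  refine card_bij (fun j _ => ((b, !s), j)) ?_ ?_ ?_
  · intro j hj
    rw [SimpleGraph.mem_neighborFinset]
    exact ⟨rfl, by cases s <;> simp, (mem_filter.1 hj).2⟩
  · intro j _ j' _ e
    exact congrArg Prod.snd e
  · rintro ⟨⟨b', s'⟩, j⟩ h
    rw [SimpleGraph.mem_neighborFinset] at h
    obtain ⟨h1, h2, h3⟩ := h
    simp only at h1 h2 h3
    refine ⟨j, mem_filter.2 ⟨mem_univ _, h3⟩, ?_⟩
    subst h1
    cases s <;> cases s' <;> simp_all

lemma low (k : ℕ) (S : Finset (W k)) (h : ∀ v, ∃ u ∈ S, (H k).Adj v u) : 6 * k ≤ S.card := by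
  have e : S.card = ∑ p : Fin k × Bool, (univ.filter (fun j : Fin 7 => (p, j) ∈ S)).card := by
    have : S = univ.filter (fun x => x ∈ S) := by simp
    rw [this, card_filter, Fintype.sum_prod_type]
    refine sum_congr rfl fun p _ => ?_
    rw [card_filter]
    simp
  have := sum_le_sum (s := univ) (f := fun _ : Fin k × Bool => 3)
    (g := fun p => (univ.filter (fun j : Fin 7 => (p, j) ∈ S)).card) (fun p _ => by
      refine three _ fun i => ?_
      obtain ⟨⟨⟨b, s⟩, j⟩, hu, h1, h2, h3⟩ := h ((p.1, !p.2), i)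
      simp only at h1 h2 h3
      refine ⟨j, mem_filter.2 ⟨mem_univ _, ?_⟩, h3⟩
      have : p = (b, s) := by
        obtain ⟨p1, p2⟩ := p
        simp only at h1 h2
        subst h1
        cases p2 <;> cases s <;> simp_all
      rw [this]; exact hu)
  simp only [sum_const, card_univ, Fintype.card_prod, Fintype.card_fin, Fintype.card_bool,
    smul_eq_mul] at this
  omega

lemma attained {V : Type} [Fintype V] (G : SimpleGraph V) (h : ∀ v, ∃ u, G.Adj v u) :
    ∃ S : Finset V, (∀ v, ∃ u ∈ S, G.Adj v u) ∧ S.card = gammaT G :=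
  Nat.sInf_mem (s := {k | ∃ S : Finset V, (∀ v, ∃ u ∈ S, G.Adj v u) ∧ S.card = k})
    ⟨_, univ, fun v => (h v).imp fun _ hu => ⟨mem_univ _, hu⟩, rfl⟩

lemma nc {V : Type} (G : SimpleGraph V) (v : V) (i : Fintype (G.neighborSet v)) :
    (G.neighborSet v).ncard = G.degree v := by
  rw [← SimpleGraph.card_neighborSet_eq_degree, Set.ncard_eq_toFinset_card', Set.toFinset_card]

lemma md {V : Type} [Fintype V] [Nonempty V] (G : SimpleGraph V) (i : DecidableRel G.Adj) (d : ℕ)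
    (h : ∀ v, (G.neighborSet v).ncard = d) : G.minDegree = d := by
  obtain ⟨v, hv⟩ := G.exists_minimal_degree_vertex
  rw [hv, ← nc, h v]

theorem result : ∀ N : ℕ, ∃ (V : Type) (_ : Fintype V) (G : SimpleGraph V),
    N ≤ Fintype.card V ∧ G.Connected ∧ min G.minDegree Gᶜ.minDegree = 4 ∧
    2 * Fintype.card V + 10 < 5 * (gammaT G + gammaT Gᶜ) ∧
    4 * Fintype.card V < 5 * (gammaT G * gammaT Gᶜ) := by
  intro N
  obtain ⟨k, hk⟩ : ∃ k, k = N + 2 := ⟨_, rfl⟩
  have c : Fintype.card (W k) = 14 * k := by simp; ring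
  have other : ∀ v : W k, ∀ w : W k, v.1.1 ≠ w.1.1 → (H k)ᶜ.Adj v w := fun v w h =>
    ⟨fun e => h (by rw [e]), fun a => h a.1⟩
  have ex : ∀ b : Fin k, ∃ b' : Fin k, b ≠ b' := fun b => by
    by_cases h : b.1 = 0
    · exact ⟨⟨1, by omega⟩, fun e => by rw [e] at h; simp at h⟩
    · exact ⟨⟨0, by omega⟩, fun e => h (by rw [e])⟩
  have : Nonempty (W k) := ⟨((⟨0, by omega⟩, false), 0)⟩
  have d1 : ∀ v, ∃ u, (H k)ᶜ.Adj v u := fun v => by
    obtain ⟨b, hb⟩ := ex v.1.1
    exact ⟨((b, false), 0), other _ _ hb⟩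
  have d2 : ∀ v, ∃ u, (H k).Adj v u := fun v => by
    rw [← SimpleGraph.degree_pos_iff_exists_adj, reg k v]; omega
  obtain ⟨S1, h1, e1⟩ := attained _ d1
  obtain ⟨S2, h2, e2⟩ := attained _ d2
  have l2 := low k S2 h2
  have l1 : 2 ≤ S1.card := by
    obtain ⟨u, hu, -⟩ := h1 (Classical.arbitrary _)
    obtain ⟨w, hw, a⟩ := h1 u
    exact one_lt_card.2 ⟨u, hu, w, hw, a.ne⟩
  refine ⟨W k, inferInstance, (H k)ᶜ, by omega, ⟨fun x y => ?_⟩, ?_, ?_, ?_⟩
  · by_cases h : x.1.1 = y.1.1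
    · obtain ⟨b, hb⟩ := ex x.1.1
      exact (other x ((b, false), 0) hb).reachable.trans
        (other y ((b, false), 0) (h ▸ hb)).reachable.symm
    · exact (other x y h).reachable
  · have n1 : ∀ v, ((H k)ᶜ.neighborSet v).ncard = 14 * k - 1 - 4 := fun v => by
      rw [nc _ v _, (reg k).compl v, c]
    have n2 : ∀ v, ((H k)ᶜᶜ.neighborSet v).ncard = 4 := fun v => by
      rw [compl_compl, nc _ v _, reg k v]
    rw [md _ _ _ n1, md _ _ _ n2]
    omega
  · rw [compl_compl]; omega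
  · rw [compl_compl, ← e1, ← e2, c]
    have := Nat.mul_le_mul l1 l2
    omega

end Pool.Agent.Results.MP_4101c8_co.Both
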